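import Pool.Agent.H294ZP.Stmts

/-! Two points with the same `j` invariant have proportional values of `E₄` and `E₆`. -/

set_option autoImplicit false

open UpperHalfPlane ModularForm H294ZP

namespace Pool.Agent.L5helper34

theorem exists_scale {τ₁ τ₂ : ℍ} (h : jj τ₁ = jj τ₂) :
    ∃ s : ℂ, s ≠ 0 ∧ E₄ τ₂ = s ^ 4 * E₄ τ₁ ∧ E₆ τ₂ = s ^ 6 * E₆ τ₁ := by
  have hD1 : discriminant τ₁ ≠ 0 := discriminant_ne_zero τ₁
  have hD2 : discriminant τ₂ ≠ 0 := discriminant_ne_zero τ₂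
  obtain ⟨s₀, hs₀⟩ := IsAlgClosed.exists_pow_nat_eq (discriminant τ₂ / discriminant τ₁)
    (n := 12) (by norm_num)
  have hs₀0 : s₀ ≠ 0 := by
    rintro rfl
    rw [zero_pow (by norm_num)] at hs₀
    exact (div_ne_zero hD2 hD1) hs₀.symm
  have hD : discriminant τ₂ = s₀ ^ 12 * discriminant τ₁ := by
    rw [hs₀, div_mul_cancel₀ _ hD1]
  have h4 : E₄ τ₂ ^ 3 = (s₀ ^ 4 * E₄ τ₁) ^ 3 := by
    unfold jj at h
    rw [div_eq_div_iff hD1 hD2, hD] at h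
    have : discriminant τ₁ * (E₄ τ₂ ^ 3 - (s₀ ^ 4 * E₄ τ₁) ^ 3) = 0 := by
      linear_combination -h
    rcases mul_eq_zero.1 this with h1 | h1
    · exact absurd h1 hD1
    · exact sub_eq_zero.1 h1
  have h6 : E₆ τ₂ ^ 2 = (s₀ ^ 6 * E₆ τ₁) ^ 2 := by
    have e1 := discriminant_eq_E₄_cube_sub_E₆_sq τ₁
    have e2 := discriminant_eq_E₄_cube_sub_E₆_sq τ₂
    rw [hD, e1] at e2
    linear_combination h4 + (-1728 : ℂ) * e2 * (-1)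
  -- the cube root of unity
  obtain ⟨ω, hω, hω4⟩ : ∃ ω : ℂ, ω ^ 3 = 1 ∧ E₄ τ₂ = ω * (s₀ ^ 4 * E₄ τ₁) := by
    by_cases hz : s₀ ^ 4 * E₄ τ₁ = 0
    · refine ⟨1, by norm_num, ?_⟩
      rw [hz, zero_pow (by norm_num)] at h4
      rw [hz, mul_zero]
      exact pow_eq_zero_iff (by norm_num) |>.1 h4
    · refine ⟨E₄ τ₂ / (s₀ ^ 4 * E₄ τ₁), ?_, ?_⟩
      · rw [div_pow, h4, div_self (pow_ne_zero _ hz)]
      · rw [div_mul_cancel₀ _ hz]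
  obtain ⟨u, hu, hu6⟩ : ∃ u : ℂ, u ^ 4 = 1 ∧ E₆ τ₂ = u ^ 6 * (s₀ ^ 6 * E₆ τ₁) := by
    rcases sq_eq_sq_iff_eq_or_eq_neg.1 h6 with h1 | h1
    · exact ⟨1, by norm_num, by rw [h1]; ring⟩
    · refine ⟨Complex.I, Complex.I_pow_four, ?_⟩
      rw [h1]
      have : Complex.I ^ 6 = -1 := by
        rw [show (6 : ℕ) = 4 + 2 from rfl, pow_add, Complex.I_pow_four, Complex.I_sq, one_mul]
      rw [this]; ring
  have hω0 : ω ≠ 0 := by rintro rfl; norm_num at hω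
  have hu0 : u ≠ 0 := by rintro rfl; norm_num at hu
  refine ⟨s₀ * ω * u, mul_ne_zero (mul_ne_zero hs₀0 hω0) hu0, ?_, ?_⟩
  · rw [hω4, mul_pow, mul_pow, hu, show ω ^ 4 = ω ^ 3 * ω by ring, hω]
    ring
  · rw [hu6, mul_pow, mul_pow, show ω ^ 6 = (ω ^ 3) ^ 2 by ring, hω]
    ring

end Pool.Agent.L5helper34
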