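import Mathlib

/-! The values of modular forms of level one at two points at which `E₄` and `E₆` have
proportional values. -/

set_option autoImplicit false

open UpperHalfPlane ModularForm MatrixGroups ModularFormClass EisensteinSeries

namespace Pool.Agent.L5helper34

theorem forms_scale {τ₁ τ₂ : ℍ} {s : ℂ} (hs : s ≠ 0) (h4 : E₄ τ₂ = s ^ 4 * E₄ τ₁)
    (h6 : E₆ τ₂ = s ^ 6 * E₆ τ₁) (k : ℕ) (f : ModularForm 𝒮ℒ (k : ℤ)) :
    f τ₂ = s ^ k * f τ₁ := by
  induction k using Nat.strong_induction_on with | _ k ih =>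
  rcases Nat.even_or_odd k with hk | hk
  swap
  · have h0 : f = 0 := ModularForm.levelOne_odd_weight_eq_zero (by exact_mod_cast hk) f
    rw [h0]
    simp
  rcases Nat.lt_or_ge k 3 with hk3 | hk3
  · interval_cases k
    · obtain ⟨c, hc⟩ := levelOne_weight_zero_const f
      have h1 : f τ₁ = c := congrFun hc τ₁
      have h2 : f τ₂ = c := congrFun hc τ₂
      rw [h1, h2]; simp
    · exact absurd hk (by decide)
    · have h0 : f = 0 := rank_zero_iff_forall_zero.mp levelOne_weight_two_rank_zero f
      rw [h0]; simp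
  · obtain ⟨a, b, hab⟩ : ∃ a b : ℕ, k = 4 * a + 6 * b := by
      obtain ⟨m, rfl⟩ := hk
      rcases Nat.even_or_odd m with ⟨l, rfl⟩ | ⟨l, rfl⟩
      · exact ⟨l, 0, by ring⟩
      · refine ⟨l - 1, 1, ?_⟩
        omega
    have hw : ((a : ℤ) * 4 + (b : ℤ) * 6) = (k : ℤ) := by rw [hab]; push_cast; ring
    set g : ModularForm 𝒮ℒ (k : ℤ) := ModularForm.mcast hw ((E₄.pow a).mul (E₆.pow b)) with hg
    have hgv : ∀ z : ℍ, g z = E₄ z ^ a * E₆ z ^ b := by
      intro z
      simp only [hg, coe_mcast, coe_mul, coe_pow, Pi.mul_apply, Pi.pow_apply]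
    have hgs : g τ₂ = s ^ k * g τ₁ := by
      rw [hgv, hgv, h4, h6, hab]
      ring
    have hgq : (qExpansion 1 g).coeff 0 = 1 := by
      have q4 : PowerSeries.constantCoeff (qExpansion 1 E₄) = 1 := by
        simpa using E_qExpansion_coeff_zero (k := 4) (by norm_num) ⟨2, rfl⟩
      have q6 : PowerSeries.constantCoeff (qExpansion 1 E₆) = 1 := by
        simpa using E_qExpansion_coeff_zero (k := 6) (by norm_num) ⟨3, rfl⟩
      simp only [hg, coe_mcast, ModularForm.qExpansion_mul one_pos one_mem_strictPeriods_SL,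
        ModularForm.qExpansion_pow one_pos one_mem_strictPeriods_SL]
      rw [PowerSeries.coeff_zero_eq_constantCoeff, map_mul, map_pow, map_pow, q4, q6]
      simp
    set c : ℂ := (qExpansion 1 f).coeff 0 with hc
    have h0 : (qExpansion 1 ((f - c • g : ModularForm 𝒮ℒ (k : ℤ)) : ℍ → ℂ)).coeff 0 = 0 := by
      rw [FunLike.coe_sub, ModularForm.qExpansion_sub one_pos one_mem_strictPeriods_SL,
        FunLike.coe_smul, ModularForm.qExpansion_smul one_pos one_mem_strictPeriods_SL, map_sub,
        PowerSeries.coeff_smul, hgq]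
      simp [hc]
    have hval : ∀ z : ℍ, discriminant z * (CuspForm.discriminantEquiv (toCuspForm (f - c • g) h0)) z
        = f z - c * g z := by
      intro z
      rw [discriminant_mul_discriminantEquiv_apply]
      rfl
    have hD : discriminant τ₂ = s ^ 12 * discriminant τ₁ := by
      rw [discriminant_eq_E₄_cube_sub_E₆_sq, discriminant_eq_E₄_cube_sub_E₆_sq, h4, h6]
      ring
    rcases lt_or_ge k 12 with hk12 | hk12
    · have hz : CuspForm.discriminantEquiv (toCuspForm (f - c • g) h0) = 0 :=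
        rank_zero_iff_forall_zero.mp (levelOne_neg_weight_rank_zero (by lia)) _
      have e1 := hval τ₁
      have e2 := hval τ₂
      rw [hz] at e1 e2
      have z1 : (0 : ModularForm 𝒮ℒ ((k : ℤ) - 12)) τ₁ = 0 := rfl
      have z2 : (0 : ModularForm 𝒮ℒ ((k : ℤ) - 12)) τ₂ = 0 := rfl
      rw [z1, mul_zero] at e1
      rw [z2, mul_zero] at e2
      have e1' : f τ₁ = c * g τ₁ := (sub_eq_zero.1 e1.symm)
      have e2' : f τ₂ = c * g τ₂ := (sub_eq_zero.1 e2.symm)
      rw [e1', e2', hgs]; ring
    · have hk' : ((k : ℤ) - 12) = ((k - 12 : ℕ) : ℤ) := by lia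
      have hi := ih (k - 12) (by lia)
        (ModularForm.mcast hk' (CuspForm.discriminantEquiv (toCuspForm (f - c • g) h0)))
      rw [ModularForm.mcast_apply, ModularForm.mcast_apply] at hi
      have e1 := hval τ₁
      have e2 := hval τ₂
      rw [hi, hD] at e2
      have hp : s ^ k = s ^ 12 * s ^ (k - 12) := by
        rw [← pow_add]; congr 1; lia
      have : f τ₂ = c * g τ₂ + s ^ 12 * discriminant τ₁ * (s ^ (k - 12) *
          (CuspForm.discriminantEquiv (toCuspForm (f - c • g) h0)) τ₁) := by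
        linear_combination -e2
      rw [this, hgs, hp]
      linear_combination (s ^ 12 * s ^ (k - 12)) * e1

end Pool.Agent.L5helper34
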