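import Pool.Agent.L5helper23.MX.Jsurj

/-! The sum of the values of `j` at the points of the Hecke correspondence of degree two is a
polynomial of degree two in `j`. -/

set_option autoImplicit false

open UpperHalfPlane H294ZP Polynomial Filter Topology

open Pool.Agent.Y226

namespace Pool.Agent.L5helper34

theorem hol_sum {ι : Type} (s : Finset ι) (f : ι → ℍ → ℂ) (h : ∀ i ∈ s, Hol (f i)) :
    Hol (fun τ => ∑ i ∈ s, f i τ) := by
  classical
  induction s using Finset.induction_on with
  | empty => simpa using TDaux.Hol.const 0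
  | insert a s ha ih =>
    simp only [Finset.sum_insert ha]
    exact TDaux.Hol.add (h a (Finset.mem_insert_self _ _))
      (ih fun i hi => h i (Finset.mem_insert_of_mem hi))

theorem lau_sum {ι : Type} {N m : ℕ} (hN : 0 < N) (hm : 0 < m) (s : Finset ι) (f : ι → ℍ → ℂ)
    (A : ι → ℂ) (h : ∀ i ∈ s, Lau N m (A i) (f i)) :
    Lau N m (∑ i ∈ s, A i) (fun τ => ∑ i ∈ s, f i τ) := by
  classical
  have hC : TC := tc
  induction s using Finset.induction_on with
  | empty =>
    simp only [Finset.sum_empty]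
    have h0 := hC.2.1 N 0 m 0 _ hN hm (hC.1 N 0 hN isIntegral_zero)
    rwa [zero_add] at h0
  | insert a s ha ih =>
    simp only [Finset.sum_insert ha]
    exact hC.2.2.1 N m _ _ _ _ hN (h a (Finset.mem_insert_self _ _))
      (ih fun i hi => h i (Finset.mem_insert_of_mem hi))

theorem hecke_two : 1 ≤ mD 2 ∧ (mP 2 (mD 2 - 1)).natDegree = 2 := by
  classical
  have hC : TC := tc
  have hA : TA := ⟨ta1.1, ta1.2, ta2⟩
  have hB : TB := TBproof.tb hA hC
  obtain ⟨ι, _, α, δ, β, h, h1, h2, h3, h4, h5⟩ := modular_spec 2 (by norm_num)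
  set D := mD 2 with hD
  set P := mP 2 with hP
  -- the point `2 τ`
  have him : ∀ τ : ℍ, 0 < ((2 : ℂ) * τ).im := by
    intro τ
    have : ((2 : ℂ) * τ).im = 2 * τ.im := by simp
    rw [this]
    have := τ.im_pos
    positivity
  let g : ℍ → ℍ := fun τ => ⟨(2 : ℂ) * τ, him τ⟩
  have hg : ∀ τ, (g τ : ℂ) = 2 * τ := fun τ => rfl
  have hzero : ∀ τ, PsiE ιZ P D (jj τ) (jj (g τ)) = 0 := by
    intro τ
    refine h5 τ (g τ) 2 0 0 1 (by norm_num) ?_
    rw [hg]; push_cast; ring
  have hD1 : 1 ≤ D := by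
    by_contra hcon
    have hD0 : D = 0 := by omega
    have := hzero I
    unfold PsiE at this
    rw [hD0] at this h3
    simp [h3] at this
  -- the polynomials
  set p : ℍ → ℂ[X] := fun τ => ∏ k, (X - C (jj (h k τ))) with hp
  set q : ℍ → ℂ[X] := fun τ => ∑ i ∈ Finset.range (D + 1), C ((P i).eval₂ ιZ (jj τ)) * X ^ i
    with hq
  have hpq : ∀ τ, p τ = q τ := by
    intro τ
    refine Polynomial.funext fun y => ?_
    have e1 : (p τ).eval y = ∏ k, (y - jj (h k τ)) := by
      rw [hp]; simp only [eval_prod, eval_sub, eval_X, eval_C]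
    have e2 : (q τ).eval y = PsiE ιZ P D (jj τ) y := by
      rw [hq]; simp only [eval_finsetSum, eval_mul, eval_C, eval_pow, eval_X]; rfl
    rw [e1, e2, h4]
  have hqc : ∀ τ i, i ≤ D → (q τ).coeff i = (P i).eval₂ ιZ (jj τ) := by
    intro τ i hi
    rw [hq]
    simp only [finsetSum_coeff, coeff_C_mul, coeff_X_pow]
    rw [Finset.sum_eq_single i]
    · simp
    · intro j _ hj; rw [if_neg (Ne.symm hj), mul_zero]
    · intro hi'; exact absurd (Finset.mem_range.2 (by omega)) hi'
  have hcard : Fintype.card ι = D := by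
    have e1 : (p I).natDegree = Fintype.card ι := by
      rw [hp]
      simp only
      rw [natDegree_prod_of_monic _ _ fun k _ => monic_X_sub_C _]
      simp
    have e2 : (q I).natDegree ≤ D := by
      rw [hq]
      refine natDegree_sum_le_of_forall_le _ _ fun i hi => ?_
      refine (natDegree_C_mul_X_pow_le _ _).trans ?_
      have := Finset.mem_range.1 hi
      omega
    have e3 : D ≤ (q I).natDegree := by
      refine le_natDegree_of_ne_zero ?_
      rw [hqc I D le_rfl, h3, eval₂_one]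
      exact one_ne_zero
    rw [← e1, hpq]
    exact le_antisymm e2 e3
  have hsum : ∀ τ, ∑ k, jj (h k τ) = -(P (D - 1)).eval₂ ιZ (jj τ) := by
    intro τ
    have e1 := Polynomial.prod_X_sub_C_coeff_card_pred (Finset.univ : Finset ι)
      (fun k => jj (h k τ)) (by rw [Finset.card_univ, hcard]; exact hD1)
    rw [Finset.card_univ, hcard] at e1
    have e2 := hqc τ (D - 1) (by omega)
    rw [← hpq τ, hp] at e2
    simp only at e2
    rw [e1] at e2
    rw [← e2, neg_neg]
  -- expansions
  have hcase : ∀ k, (α k = 1 ∧ δ k = 2) ∨ (α k = 2 ∧ δ k = 1) := by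
    intro k
    obtain ⟨ha, hd, had⟩ := h1 k
    have ha2 : α k ≤ 2 := Nat.le_of_dvd (by norm_num) ⟨δ k, had.symm⟩
    have : α k = 1 ∨ α k = 2 := by omega
    rcases this with h | h
    · left; rw [h] at had; exact ⟨h, by omega⟩
    · right; rw [h] at had; exact ⟨h, by omega⟩
  have hlau : ∀ k, Lau 2 4 (if α k = 2 then 1 else 0) (fun τ => jj (h k τ)) ∧
      Hol (fun τ => jj (h k τ)) := by
    intro k
    obtain ⟨ha, hd, had⟩ := h1 k
    have e := hC.2.2.2.2 hA.2.1 hA.2.2 (α k) (δ k) (β k) ha hd (h k) (h2 k)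
    refine ⟨?_, e.2⟩
    have e1 := e.1
    rw [had] at e1
    rcases hcase k with ⟨h1', h2'⟩ | ⟨h1', h2'⟩
    · rw [h1'] at e1 ⊢
      rw [if_neg (by norm_num)]
      have := hC.2.1 2 (1 ^ 2) 3 _ _ (by norm_num) (by norm_num) e1
      exact this
    · rw [h1', h2'] at e1
      rw [h1', if_pos rfl]
      have hexp : Complex.exp (-(2 * Real.pi * Complex.I * (β k) / ((1 : ℕ) : ℂ))) = 1 := by
        have : -(2 * (Real.pi : ℂ) * Complex.I * (β k) / ((1 : ℕ) : ℂ)) =
            ((-β k : ℤ) : ℂ) * (2 * Real.pi * Complex.I) := by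
          push_cast; ring
        rw [this, Complex.exp_int_mul_two_pi_mul_I]
      rw [hexp] at e1
      exact e1
  set A : ℂ := ∑ k, (if α k = 2 then 1 else 0) with hAdef
  have hLf : Lau 2 4 A (fun τ => ∑ k, jj (h k τ)) :=
    lau_sum (by norm_num) (by norm_num) Finset.univ _ _ fun k _ => (hlau k).1
  have hHf : Hol (fun τ => ∑ k, jj (h k τ)) := hol_sum Finset.univ _ fun k _ => (hlau k).2
  have hIf : Inv (fun τ => ∑ k, jj (h k τ)) := by
    intro a b c d hdet τ w hw
    show ∑ k, jj (h k w) = ∑ k, jj (h k τ)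
    rw [hsum, hsum, hA.1 a b c d hdet τ w hw]
  obtain ⟨Q, -, hQ2, -, hQ4, hQ5⟩ := hB 2 (by norm_num) 4 A _ hIf hHf hLf
  have hQ6 : Q.coeff 2 = A := by
    have := hQ5 (by norm_num)
    simpa using this
  have hQd : Q.natDegree ≤ 2 := by simpa using hQ4
  -- the leading coefficient
  have hA0 : A ≠ 0 := by
    intro hA0
    have hall : ∀ k, α k = 1 := by
      intro k
      rcases hcase k with h' | h'
      · exact h'.1
      · exfalso
        have e1 : A = ((Finset.univ.filter fun k => α k = 2).card : ℂ) := by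
          rw [hAdef, Finset.sum_ite, Finset.sum_const_zero, add_zero, Finset.sum_const,
            nsmul_eq_mul, mul_one]
        rw [hA0] at e1
        have e2 : (Finset.univ.filter fun k => α k = 2).card = 0 := by exact_mod_cast e1.symm
        have e3 := Finset.card_eq_zero.1 e2
        have : k ∈ Finset.univ.filter fun k => α k = 2 := by simp [h'.1]
        rw [e3] at this
        exact absurd this (Finset.notMem_empty _)
    have hgl : Lau 2 4 1 (fun τ => jj (g τ)) := by
      have e := (hC.2.2.2.2 hA.2.1 hA.2.2 2 1 0 (by norm_num) (by norm_num) g (fun τ => by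
        rw [hg]; push_cast; ring)).1
      have hexp : Complex.exp (-(2 * Real.pi * Complex.I * ((0 : ℤ) : ℂ) / ((1 : ℕ) : ℂ))) = 1 := by
        simp
      rw [hexp] at e
      exact e
    have l1 := TBproof.lau_limit 2 4 1 _ (by norm_num) hgl
    have l2 : ∀ k, Tendsto (fun τ => qq 2 τ ^ 4 * jj (h k τ)) atImInfty (𝓝 0) := by
      intro k
      have e := (hlau k).1
      rw [hall k, if_neg (by norm_num)] at e
      exact TBproof.lau_limit 2 4 0 _ (by norm_num) e
    have l3 : Tendsto (fun τ => ∏ k, (qq 2 τ ^ 4 * jj (g τ) - qq 2 τ ^ 4 * jj (h k τ)))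
        atImInfty (𝓝 (∏ _k : ι, ((1 : ℂ) - 0))) :=
      tendsto_finsetProd _ fun k _ => l1.sub (l2 k)
    have l4 : ∀ τ, ∏ k, (qq 2 τ ^ 4 * jj (g τ) - qq 2 τ ^ 4 * jj (h k τ)) = 0 := by
      intro τ
      have e1 := h4 τ (jj (g τ))
      rw [hzero τ] at e1
      have e2 : ∏ k, (qq 2 τ ^ 4 * jj (g τ) - qq 2 τ ^ 4 * jj (h k τ)) =
          ∏ k, (qq 2 τ ^ 4 * (jj (g τ) - jj (h k τ))) :=
        Finset.prod_congr rfl fun k _ => by ring
      rw [e2, Finset.prod_mul_distrib, e1, mul_zero]
    simp only [l4] at l3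
    have l5 := tendsto_nhds_unique l3 tendsto_const_nhds
    simp at l5
  have hQn : Q.natDegree = 2 := by
    refine le_antisymm hQd (le_natDegree_of_ne_zero ?_)
    rw [hQ6]; exact hA0
  refine ⟨hD1, ?_⟩
  have hQP : Q = -((P (D - 1)).map ιZ) := by
    refine Polynomial.funext fun c => ?_
    obtain ⟨τ, hτ⟩ := Pool.Agent.L5helper23.MX.exists_jj c
    have e1 := hQ2 τ
    rw [hsum, hτ] at e1
    rw [← e1, eval_neg, eval_map]
  have hinj : Function.Injective ιZ := Subtype.val_injective
  rw [← natDegree_map_eq_of_injective hinj (P (D - 1)), ← natDegree_neg, ← hQP]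
  exact hQn

end Pool.Agent.L5helper34
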